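import Mathlib
import Pool.Agent.Lib.MP_aa4a89_co.Main

/-!
# Cycles in the cube of a graph

`cube B` is the graph in which two different vertices are adjacent when their distance in `B` is at
most three.  Every connected set of `k ≥ 3` vertices of `B` carries a cycle of length `k` of
`cube B` (Sekanina).
-/

namespace Pool.Agent.Lib.MP_aa4a89_co.Exp

open Finset

variable {V : Type*}

/-- Equal or adjacent. -/
def Lz (B : SimpleGraph V) (x y : V) : Prop := x = y ∨ B.Adj x y

lemma Lz.symm {B : SimpleGraph V} {x y : V} (h : Lz B x y) : Lz B y x := by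
  rcases h with h | h
  · exact Or.inl h.symm
  · exact Or.inr h.symm

lemma Lz.refl {B : SimpleGraph V} (x : V) : Lz B x x := Or.inl rfl

/-- The cube of a graph. -/
def cube (B : SimpleGraph V) : SimpleGraph V where
  Adj x y := x ≠ y ∧ ∃ a b, Lz B x a ∧ Lz B a b ∧ Lz B b y
  symm := ⟨by
    rintro x y ⟨h, a, b, h1, h2, h3⟩
    exact ⟨h.symm, b, a, h3.symm, h2.symm, h1.symm⟩⟩
  loopless := ⟨by
    rintro x ⟨h, _⟩
    exact h rfl⟩

lemma le_cube (B : SimpleGraph V) : B ≤ cube B := by
  intro x y h
  exact ⟨h.ne, x, x, Lz.refl x, Lz.refl x, Or.inr h⟩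

/-- `Tr B S u`: the set `S` carries a tree of `B` with root `u`. -/
inductive Tr [DecidableEq V] (B : SimpleGraph V) : Finset V → V → Prop
  | leaf (u : V) : Tr B {u} u
  | join {S S' : Finset V} {u v : V} : Tr B S u → Tr B S' v → Disjoint S S' → B.Adj u v →
      Tr B (S ∪ S') u

lemma Tr.mem [DecidableEq V] {B : SimpleGraph V} {S : Finset V} {u : V} (h : Tr B S u) :
    u ∈ S := by
  induction h with
  | leaf u => simp
  | join _ _ _ _ ih _ => exact mem_union_left _ ih

lemma Tr.insert [DecidableEq V] {B : SimpleGraph V} {S : Finset V} {u : V} (h : Tr B S u)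
    {z w : V} (hz : z ∈ S) (hw : w ∉ S) (hzw : B.Adj z w) : Tr B (insert w S) u := by
  induction h generalizing z with
  | leaf u =>
    rw [mem_singleton] at hz
    subst hz
    have : (Insert.insert w {z} : Finset V) = {z} ∪ {w} := by
      ext a
      simp [or_comm]
    rw [this]
    refine Tr.join (Tr.leaf z) (Tr.leaf w) ?_ hzw
    rw [disjoint_singleton]
    intro h
    exact hw (by simp [h])
  | @join S S' u v h1 h2 hd hadj ih1 ih2 =>
    rw [mem_union, not_or] at hw
    rw [mem_union] at hz
    rcases hz with hz | hz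
    · have := Tr.join (ih1 hz hw.1 hzw) h2 (by
        rw [disjoint_insert_left]
        exact ⟨hw.2, hd⟩) hadj
      rwa [insert_union] at this
    · have := Tr.join h1 (ih2 hz hw.2 hzw) (by
        rw [disjoint_insert_right]
        exact ⟨hw.1, hd⟩) hadj
      rwa [union_insert] at this

/-- A tree with root `u` has a Hamiltonian path in the cube from `u` to a vertex that is `u` or a
neighbour of `u`. -/
lemma Tr.ham [DecidableEq V] {B : SimpleGraph V} {S : Finset V} {u : V} (h : Tr B S u) :
    ∃ l : List V, ∃ v : V, l.Nodup ∧ l.toFinset = S ∧ l.IsChain (cube B).Adj ∧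
      l.head? = some u ∧ l.getLast? = some v ∧ Lz B v u := by
  induction h with
  | leaf u =>
    exact ⟨[u], u, by simp, by simp, by simp, by simp, by simp, Lz.refl u⟩
  | @join S S' u v h1 h2 hd hadj ih1 ih2 =>
    obtain ⟨l, u', hl1, hl2, hl3, hl4, hl5, hl6⟩ := ih1
    obtain ⟨l', v', hl1', hl2', hl3', hl4', hl5', hl6'⟩ := ih2
    refine ⟨l ++ l'.reverse, v, ?_, ?_, ?_, ?_, ?_, Or.inr hadj.symm⟩
    · rw [List.nodup_append']
      refine ⟨hl1, List.nodup_reverse.2 hl1', ?_⟩
      intro a ha ha'
      rw [List.mem_reverse] at ha'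
      rw [← hl2, ← hl2'] at hd
      exact (Finset.disjoint_left.1 hd) (List.mem_toFinset.2 ha) (List.mem_toFinset.2 ha')
    · rw [List.toFinset_append, List.toFinset_reverse, hl2, hl2']
    · rw [List.isChain_append]
      refine ⟨hl3, ?_, ?_⟩
      · rw [List.isChain_reverse]
        refine hl3'.imp ?_
        intro a b hab
        exact hab.symm
      · intro x hx y hy
        rw [hl5, Option.mem_def, Option.some.injEq] at hx
        rw [List.head?_reverse, hl5', Option.mem_def, Option.some.injEq] at hy
        subst hx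
        subst hy
        refine ⟨?_, u, v, hl6, Or.inr hadj, hl6'.symm⟩
        intro hne
        have m1 : u' ∈ S := by
          rw [← hl2]
          exact List.mem_toFinset.2 (List.mem_of_getLast? hl5)
        have m2 : v' ∈ S' := by
          rw [← hl2']
          exact List.mem_toFinset.2 (List.mem_of_getLast? hl5')
        rw [hne] at m1
        exact (Finset.disjoint_left.1 hd) m1 m2
    · rw [List.head?_append, hl4]
      rfl
    · rw [List.getLast?_append, List.getLast?_reverse, hl4']
      rfl

lemma cycle_of_list [DecidableEq V] (G : SimpleGraph V) (A : Set V) (l : List V) (k : ℕ)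
    (hk : 3 ≤ k) (hlen : l.length = k) (hl : l.Nodup) (hc : l.IsChain G.Adj)
    (hA : ∀ x ∈ l, x ∉ A) (hclose : ∀ a b, l.head? = some a → l.getLast? = some b → G.Adj b a) :
    ¬ (SimpleGraph.cycleGraph k).Free (G.induce Aᶜ) := by
  subst hlen
  intro hfree
  apply hfree
  have hstep : ∀ u v : Fin l.length, (u - v).val = 1 → G.Adj (l.get v) (l.get u) := by
    intro u v huv
    rcases cycle_sub hk huv with h | ⟨h1, h2⟩
    · rw [List.isChain_iff_getElem] at hc
      have := hc v.val (by omega)
      simp only [List.get_eq_getElem]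
      rw [show l[u.val] = l[v.val + 1] from by congr 1]
      exact this
    · have hh : l.head? = some (l.get u) := by
        rw [List.head?_eq_getElem?, List.get_eq_getElem]
        rw [List.getElem?_eq_getElem (by omega)]
        congr 1
        congr 1
        exact h1.symm
      have ht : l.getLast? = some (l.get v) := by
        rw [List.getLast?_eq_getElem?, List.get_eq_getElem]
        rw [List.getElem?_eq_getElem (by omega)]
        congr 1
        congr 1
        omega
      exact hclose _ _ hh ht
  let φ : SimpleGraph.cycleGraph l.length →g G.induce Aᶜ :=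
    ⟨fun i => ⟨l.get i, hA _ (List.get_mem l i)⟩, by
      intro u v huv
      rw [SimpleGraph.cycleGraph_adj'] at huv
      rcases huv with h | h
      · exact (hstep u v h).symm
      · exact hstep v u h⟩
  refine ⟨φ.toCopy ?_⟩
  intro u v huv
  have h1 : l.get u = l.get v := congrArg Subtype.val huv
  exact (List.nodup_iff_injective_get.1 hl) h1

/-- A tree with `k ≥ 3` vertices outside `A` gives a cycle with `k` vertices in the cube. -/
lemma Tr.cycle [DecidableEq V] {B : SimpleGraph V} {S : Finset V} {u : V} (h : Tr B S u)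
    (A : Set V) (k : ℕ) (hk : 3 ≤ k) (hS : S.card = k) (hA : ∀ x ∈ S, x ∉ A) :
    ¬ (SimpleGraph.cycleGraph k).Free ((cube B).induce Aᶜ) := by
  obtain ⟨l, v, h1, h2, h3, h4, h5, h6⟩ := h.ham
  have hlen : l.length = k := by
    rw [← hS, ← h2, List.toFinset_card_of_nodup h1]
  refine cycle_of_list (cube B) A l k hk hlen h1 h3 ?_ ?_
  · intro x hx
    apply hA
    rw [← h2]
    exact List.mem_toFinset.2 hx
  · intro a b ha hb
    rw [h4, Option.some.injEq] at ha
    rw [h5, Option.some.injEq] at hb
    subst ha
    subst hb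
    refine ⟨?_, v, v, Lz.refl v, Lz.refl v, h6⟩
    intro hvu
    have h0 : 0 < l.length := by omega
    rw [List.head?_eq_getElem?, List.getElem?_eq_getElem h0, Option.some.injEq] at h4
    rw [List.getLast?_eq_getElem?, List.getElem?_eq_getElem (by omega), Option.some.injEq] at h5
    rw [hvu, ← h4] at h5
    have := (List.Nodup.getElem_inj_iff h1).1 h5
    omega

end Pool.Agent.Lib.MP_aa4a89_co.Exp
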