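import Mathlib
import Pool.Agent.Lib.MP_aa4a89_co.Exp.Cube

/-!
# Large connected parts of expanders after the deletion of a set
-/

namespace Pool.Agent.Lib.MP_aa4a89_co.Exp

open Finset Classical

variable {V : Type*} [Fintype V]

/-- The outer boundary of a set of vertices. -/
noncomputable def bd (B : SimpleGraph V) (S : Finset V) : Finset V :=
  univ.filter fun y => y ∉ S ∧ ∃ x ∈ S, B.Adj x y

/-- Every nonempty set `S` with at most half of the vertices has an outer boundary with more than
`|S| / 8` vertices. -/
def Expander (B : SimpleGraph V) : Prop :=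
  ∀ S : Finset V, S.Nonempty → 2 * S.card ≤ Fintype.card V → S.card < 8 * (bd B S).card

/-- `U` has no edges to the vertices outside `U` and `X`. -/
def Closed (B : SimpleGraph V) (X U : Finset V) : Prop :=
  Disjoint U X ∧ ∀ x ∈ U, ∀ y, B.Adj x y → y ∈ U ∨ y ∈ X

lemma Closed.card_le {B : SimpleGraph V} (hB : Expander B) {X U : Finset V}
    (h : Closed B X U) (hU : 2 * U.card ≤ Fintype.card V) : U.card ≤ 8 * X.card := by
  rcases U.eq_empty_or_nonempty with rfl | hne
  · simp
  · have h1 := hB U hne hU
    have h2 : bd B U ⊆ X := by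
      intro y hy
      rw [bd, mem_filter] at hy
      obtain ⟨_, hyU, x, hx, hxy⟩ := hy
      rcases h.2 x hx y hxy with h3 | h3
      · exact absurd h3 hyU
      · exact h3
    have h3 := card_le_card h2
    omega

/-- After the deletion of a small set `X` an expander has a connected part with at least
`n - 9 |X|` vertices. -/
lemma exists_big {B : SimpleGraph V} (hB : Expander B) (X : Finset V)
    (hX : 32 * X.card ≤ Fintype.card V) :
    ∃ R : Finset V, Disjoint R X ∧ Fintype.card V ≤ R.card + 9 * X.card ∧
      ∀ S ⊆ R, S.Nonempty → S ≠ R → ∃ x ∈ S, ∃ y ∈ R, y ∉ S ∧ B.Adj x y := by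
  obtain ⟨U, hU, hmax⟩ := exists_max_image
    (univ.filter fun U : Finset V => Closed B X U ∧ 2 * U.card ≤ Fintype.card V) card
    ⟨∅, by
      rw [mem_filter]
      refine ⟨mem_univ _, ⟨disjoint_empty_left _, ?_⟩, by simp⟩
      intro x hx
      exact absurd hx (notMem_empty x)⟩
  rw [mem_filter] at hU
  obtain ⟨_, hUc, hU2⟩ := hU
  have hU8 := hUc.card_le hB hU2
  have hRc : Closed B X (univ \ (U ∪ X)) := by
    constructor
    · rw [disjoint_left]
      intro a ha ha'
      rw [mem_sdiff, mem_union, not_or] at ha
      exact ha.2.2 ha'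
    · intro x hx y hxy
      rw [mem_sdiff, mem_union, not_or] at hx
      by_cases hyX : y ∈ X
      · exact Or.inr hyX
      · left
        rw [mem_sdiff, mem_union, not_or]
        refine ⟨mem_univ _, ?_, hyX⟩
        intro hyU
        rcases hUc.2 y hyU x hxy.symm with h | h
        · exact hx.2.1 h
        · exact hx.2.2 h
  refine ⟨univ \ (U ∪ X), hRc.1, ?_, ?_⟩
  · rw [card_sdiff_of_subset (subset_univ _), card_univ]
    have := card_union_le U X
    omega
  · intro S hSR hSne hSR'
    by_contra hno
    push Not at hno
    set R := univ \ (U ∪ X) with hR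
    -- both `S` and `R \ S` are closed
    have hS : Closed B X S := by
      refine ⟨disjoint_of_subset_left hSR hRc.1, ?_⟩
      intro x hx y hxy
      rcases hRc.2 x (hSR hx) y hxy with h | h
      · by_cases hyS : y ∈ S
        · exact Or.inl hyS
        · exact absurd hxy (hno x hx y h hyS)
      · exact Or.inr h
    have hS' : Closed B X (R \ S) := by
      refine ⟨disjoint_of_subset_left sdiff_subset hRc.1, ?_⟩
      intro x hx y hxy
      rw [mem_sdiff] at hx
      rcases hRc.2 x hx.1 y hxy with h | h
      · by_cases hyS : y ∈ S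
        · exact absurd hxy.symm (hno y hyS x hx.1 hx.2)
        · exact Or.inl (mem_sdiff.2 ⟨h, hyS⟩)
      · exact Or.inr h
    have hne' : (R \ S).Nonempty := by
      rw [sdiff_nonempty]
      intro h
      exact hSR' (Subset.antisymm hSR h)
    have hcard : S.card + (R \ S).card ≤ Fintype.card V := by
      rw [← card_union_of_disjoint disjoint_sdiff]
      exact card_le_univ _
    have key : ∀ T : Finset V, T ⊆ R → T.Nonempty → Closed B X T →
        2 * T.card ≤ Fintype.card V → False := by
      intro T hTR hTne hT hT2
      have hT8 := hT.card_le hB hT2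
      have hdis : Disjoint U T := by
        rw [disjoint_left]
        intro a ha ha'
        have := hTR ha'
        rw [hR, mem_sdiff, mem_union, not_or] at this
        exact this.2.1 ha
      have hUT : Closed B X (U ∪ T) := by
        refine ⟨disjoint_union_left.2 ⟨hUc.1, hT.1⟩, ?_⟩
        intro x hx y hxy
        rw [mem_union] at hx
        rcases hx with hx | hx
        · rcases hUc.2 x hx y hxy with h | h
          · exact Or.inl (mem_union_left _ h)
          · exact Or.inr h
        · rcases hT.2 x hx y hxy with h | h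
          · exact Or.inl (mem_union_right _ h)
          · exact Or.inr h
      have hc := card_union_of_disjoint hdis
      have hTpos := hTne.card_pos
      have := hmax (U ∪ T) (by
        rw [mem_filter]
        exact ⟨mem_univ _, hUT, by omega⟩)
      omega
    rcases le_total (2 * S.card) (Fintype.card V) with h | h
    · exact key S hSR hSne hS h
    · exact key (R \ S) sdiff_subset hne' hS' (by omega)

/-- A connected set contains trees of all sizes. -/
lemma exists_tree (B : SimpleGraph V) (R : Finset V)
    (hR : ∀ S ⊆ R, S.Nonempty → S ≠ R → ∃ x ∈ S, ∃ y ∈ R, y ∉ S ∧ B.Adj x y)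
    (j : ℕ) (hj : 1 ≤ j) (hjR : j ≤ R.card) :
    ∃ S ⊆ R, S.card = j ∧ ∃ u, Tr B S u := by
  induction j, hj using Nat.le_induction with
  | base =>
    obtain ⟨u, hu⟩ := card_pos.1 (show 0 < R.card by omega)
    exact ⟨{u}, singleton_subset_iff.2 hu, card_singleton u, u, Tr.leaf u⟩
  | succ j hj ih =>
    obtain ⟨S, hSR, hSj, u, hT⟩ := ih (by omega)
    have hne : S ≠ R := by
      intro h
      rw [h] at hSj
      omega
    obtain ⟨x, hx, y, hyR, hyS, hxy⟩ := hR S hSR ⟨u, hT.mem⟩ hne
    refine ⟨insert y S, insert_subset hyR hSR, ?_, u, hT.insert hx hyS hxy⟩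
    rw [card_insert_of_notMem hyS, hSj]

/-- Expanders are connected. -/
lemma Expander.connected [Nonempty V] {B : SimpleGraph V} (hB : Expander B) : B.Connected := by
  obtain ⟨R, _, hcard, hR⟩ := exists_big hB ∅ (by simp)
  have hRu : R = univ := by
    apply eq_univ_of_card
    apply le_antisymm (card_le_univ _)
    simpa using hcard
  subst hRu
  rw [SimpleGraph.connected_iff]
  refine ⟨?_, inferInstance⟩
  intro a b
  by_contra hab
  obtain ⟨x, hx, y, _, hy, hxy⟩ := hR (univ.filter fun z => B.Reachable a z) (subset_univ _)
    ⟨a, mem_filter.2 ⟨mem_univ _, SimpleGraph.Reachable.refl a⟩⟩ (by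
      intro h
      have : b ∈ univ.filter fun z => B.Reachable a z := by
        rw [h]
        exact mem_univ _
      exact hab (mem_filter.1 this).2)
  rw [mem_filter] at hx hy
  exact hy ⟨mem_univ _, hx.2.trans hxy.reachable⟩

end Pool.Agent.Lib.MP_aa4a89_co.Exp
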