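import Mathlib

/-!
# Permutations that map a set into a small set
-/

namespace Pool.Agent.Lib.MP_aa4a89_co.Exp

open Finset Classical

variable {V : Type*} [Fintype V]

/-- The permutations that map `S` into `T`. -/
noncomputable def maps (S T : Finset V) : Finset (Equiv.Perm V) :=
  univ.filter fun π => ∀ x ∈ S, π x ∈ T

lemma card_fix (S : Finset V) :
    (univ.filter fun π : Equiv.Perm V => ∀ x ∈ S, π x = x).card
      = (Fintype.card V - S.card).factorial := by
  have h1 := Fintype.card_congr (Equiv.Perm.subtypeEquivSubtypePerm (fun x : V => x ∉ S))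
  rw [Fintype.card_perm] at h1
  have h2 : Fintype.card {x : V // x ∉ S} = Fintype.card V - S.card := by
    rw [Fintype.card_subtype_compl]
    simp
  rw [h2] at h1
  rw [h1, Fintype.card_subtype]
  congr 1
  ext π
  simp

lemma card_maps_le (S T : Finset V) :
    (maps S T).card ≤ (Fintype.card V - S.card).factorial * T.card.descFactorial S.card := by
  have key := Finset.card_le_mul_card_image (s := maps S T)
    (f := fun π : Equiv.Perm V => fun x : S => π x.1) (Fintype.card V - S.card).factorial ?_
  · refine key.trans (Nat.mul_le_mul_left _ ?_)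
    have hemb : Fintype.card (S ↪ T) = T.card.descFactorial S.card := by
      rw [Fintype.card_embedding_eq]
      simp
    rw [← hemb, ← Finset.card_univ]
    refine (Finset.card_le_card ?_).trans (Finset.card_image_le (s := univ)
      (f := fun (g : S ↪ T) => fun x : S => (g x : V)))
    intro g hg
    rw [mem_image] at hg
    obtain ⟨π, hπ, rfl⟩ := hg
    rw [maps, mem_filter] at hπ
    rw [mem_image]
    refine ⟨⟨fun x => ⟨π x.1, hπ.2 x.1 x.2⟩, ?_⟩, mem_univ _, rfl⟩
    intro x y hxy
    have : π x.1 = π y.1 := congrArg Subtype.val hxy
    exact Subtype.ext (π.injective this)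
  · intro g hg
    rw [mem_image] at hg
    obtain ⟨π₀, hπ₀, rfl⟩ := hg
    rw [← card_fix S]
    apply Finset.card_le_card_of_injOn (fun π => π₀⁻¹ * π)
    · intro π hπ
      have hπ' := Finset.mem_coe.1 hπ
      rw [mem_filter] at hπ'
      apply Finset.mem_coe.2
      rw [mem_filter]
      refine ⟨mem_univ _, ?_⟩
      intro x hx
      have := congrFun hπ'.2 ⟨x, hx⟩
      simp only at this
      rw [Equiv.Perm.mul_apply, this]
      exact π₀.symm_apply_apply x
    · intro π _ π' _ h
      exact mul_left_cancel h

lemma desc_mul_pow (t n s : ℕ) (h : t ≤ n) :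
    t.descFactorial s * n ^ s ≤ t ^ s * n.descFactorial s := by
  induction s with
  | zero => simp
  | succ s ih =>
    rw [Nat.descFactorial_succ, Nat.descFactorial_succ, pow_succ, pow_succ]
    have h1 : (t - s) * n ≤ t * (n - s) := by
      rw [Nat.sub_mul, Nat.mul_sub]
      have : t * s ≤ s * n := by
        rw [mul_comm t s]
        exact Nat.mul_le_mul_left s h
      exact Nat.sub_le_sub_left this _
    calc (t - s) * t.descFactorial s * (n ^ s * n)
        = (t.descFactorial s * n ^ s) * ((t - s) * n) := by ring
      _ ≤ (t ^ s * n.descFactorial s) * (t * (n - s)) := Nat.mul_le_mul ih h1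
      _ = t ^ s * t * ((n - s) * n.descFactorial s) := by ring

/-- A random permutation maps `S` into `T` with probability at most `(|T| / n) ^ |S|`. -/
lemma card_maps_mul (S T : Finset V) :
    (maps S T).card * Fintype.card V ^ S.card
      ≤ T.card ^ S.card * (Fintype.card V).factorial := by
  have hS : S.card ≤ Fintype.card V := card_le_univ S
  have hT : T.card ≤ Fintype.card V := card_le_univ T
  calc (maps S T).card * Fintype.card V ^ S.card
      ≤ ((Fintype.card V - S.card).factorial * T.card.descFactorial S.card)
        * Fintype.card V ^ S.card := Nat.mul_le_mul_right _ (card_maps_le S T)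
    _ = (Fintype.card V - S.card).factorial *
        (T.card.descFactorial S.card * Fintype.card V ^ S.card) := by ring
    _ ≤ (Fintype.card V - S.card).factorial *
        (T.card ^ S.card * (Fintype.card V).descFactorial S.card) :=
        Nat.mul_le_mul_left _ (desc_mul_pow _ _ _ hT)
    _ = T.card ^ S.card * ((Fintype.card V - S.card).factorial *
        (Fintype.card V).descFactorial S.card) := by ring
    _ = T.card ^ S.card * (Fintype.card V).factorial := by
        rw [Nat.factorial_mul_descFactorial hS]

end Pool.Agent.Lib.MP_aa4a89_co.Exp
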