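import Mathlib
import Pool.Agent.Lib.MP_aa4a89_co.Exp.Perms
import Pool.Agent.Lib.MP_aa4a89_co.Exp.Grow

/-!
# Existence of expanders of bounded degree with any number of vertices
-/

namespace Pool.Agent.Lib.MP_aa4a89_co.Exp

open Finset Classical

/-- The graph of a family of permutations. -/
def permGraph {V : Type*} {r : ℕ} (π : Fin r → Equiv.Perm V) : SimpleGraph V where
  Adj x y := x ≠ y ∧ ∃ i, π i x = y ∨ π i y = x
  symm := ⟨by
    rintro x y ⟨h, i, h1⟩
    exact ⟨h.symm, i, h1.symm⟩⟩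
  loopless := ⟨by
    rintro x ⟨h, _⟩
    exact h rfl⟩

lemma choose_mul_le (n s : ℕ) (hs : 1 ≤ s) (hn : 2 * s ≤ n) :
    (n.choose s : ℝ) * ((s : ℝ) / n) ^ s ≤ Real.exp 1 ^ s := by
  have hs0 : (0 : ℝ) < s := by exact_mod_cast hs
  have hn0 : (0 : ℝ) < n := by
    have : 0 < n := by omega
    exact_mod_cast this
  have h1 : (n.choose s : ℝ) ≤ (n : ℝ) ^ s / s.factorial := Nat.choose_le_pow_div s n
  have h2 : (s : ℝ) ^ s / s.factorial ≤ Real.exp s :=
    Real.pow_div_factorial_le_exp s hs0.le s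
  rw [← Real.exp_nat_mul, mul_one]
  refine le_trans ?_ h2
  calc (n.choose s : ℝ) * ((s : ℝ) / n) ^ s
      ≤ ((n : ℝ) ^ s / s.factorial) * ((s : ℝ) / n) ^ s :=
        mul_le_mul_of_nonneg_right h1 (by positivity)
    _ = (s : ℝ) ^ s / s.factorial := by
        rw [div_pow]
        field_simp

lemma choose_mono_half {n a s : ℕ} (has : a ≤ s) (hs : 2 * s ≤ n) : n.choose a ≤ n.choose s := by
  induction s, has using Nat.le_induction with
  | base => exact le_rfl
  | succ s _ ih =>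
    refine (ih (by omega)).trans (Nat.choose_le_succ_of_lt_half_left ?_)
    omega

lemma term_le (n s : ℕ) (hs : 1 ≤ s) (hn : 2 * s ≤ n) :
    (n.choose s : ℝ) * (n.choose (s / 8) : ℝ) * (((9 / 8 * s : ℝ) / n) ^ s) ^ 8
      ≤ (3 / 10 : ℝ) ^ s := by
  have hs0 : (0 : ℝ) < s := by exact_mod_cast hs
  have hn0 : (0 : ℝ) < n := by
    have : 0 < n := by omega
    exact_mod_cast this
  have h1 : (n.choose (s / 8) : ℝ) ≤ n.choose s := by
    exact_mod_cast choose_mono_half (Nat.div_le_self s 8) hn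
  have h2 := choose_mul_le n s hs hn
  have hx : (s : ℝ) / n ≤ 1 / 2 := by
    rw [div_le_iff₀ hn0]
    have : (2 * s : ℝ) ≤ n := by exact_mod_cast hn
    linarith
  have hx0 : 0 ≤ (s : ℝ) / n := by positivity
  have he : Real.exp 1 ^ 2 * (9 / 8 : ℝ) ^ 8 * (1 / 2) ^ 6 ≤ 3 / 10 := by
    have h3 : Real.exp 1 < 2.7182818286 := Real.exp_one_lt_d9
    have h4 : (0 : ℝ) < Real.exp 1 := Real.exp_pos 1
    have h5 : Real.exp 1 ^ 2 < 2.7182818286 ^ 2 := by
      apply pow_lt_pow_left₀ h3 h4.le (by norm_num)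
    nlinarith
  calc (n.choose s : ℝ) * (n.choose (s / 8) : ℝ) * (((9 / 8 * s : ℝ) / n) ^ s) ^ 8
      ≤ (n.choose s : ℝ) * (n.choose s : ℝ) * (((9 / 8 * s : ℝ) / n) ^ s) ^ 8 := by
        apply mul_le_mul_of_nonneg_right _ (by positivity)
        exact mul_le_mul_of_nonneg_left h1 (by positivity)
    _ = ((n.choose s : ℝ) * ((s : ℝ) / n) ^ s) ^ 2 * (((9 / 8 : ℝ) ^ 8) ^ s *
          ((((s : ℝ) / n) ^ 6) ^ s)) := by
        rw [mul_div_assoc, mul_pow (9 / 8 : ℝ), ← pow_mul (9 / 8 : ℝ) 8 s, mul_comm 8 s,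
          pow_mul (9 / 8 : ℝ) s 8]
        generalize (9 / 8 : ℝ) ^ s = a
        ring
    _ ≤ (Real.exp 1 ^ s) ^ 2 * (((9 / 8 : ℝ) ^ 8) ^ s * (((1 / 2 : ℝ) ^ 6) ^ s)) := by
        apply mul_le_mul
        · exact pow_le_pow_left₀ (by positivity) h2 2
        · apply mul_le_mul_of_nonneg_left _ (by positivity)
          apply pow_le_pow_left₀ (by positivity)
          exact pow_le_pow_left₀ hx0 hx 6
        · positivity
        · positivity
    _ = (Real.exp 1 ^ 2 * (9 / 8 : ℝ) ^ 8 * (1 / 2) ^ 6) ^ s := by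
        rw [mul_pow, mul_pow]
        generalize ((9 / 8 : ℝ) ^ 8) ^ s = a
        generalize ((1 / 2 : ℝ) ^ 6) ^ s = b
        ring
    _ ≤ (3 / 10 : ℝ) ^ s := pow_le_pow_left₀ (by positivity) he s

lemma sum_lt (m : ℕ) : ∑ s ∈ Icc 1 m, (3 / 10 : ℝ) ^ s < 1 := by
  have h : ∀ m : ℕ, ∑ s ∈ Icc 1 m, (3 / 10 : ℝ) ^ s ≤ 3 / 7 - 3 / 7 * (3 / 10 : ℝ) ^ m := by
    intro m
    induction m with
    | zero => simp
    | succ m ih =>
      rw [Finset.sum_Icc_succ_top (by omega)]
      rw [pow_succ]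
      linarith
  have h1 := h m
  have h2 : (0 : ℝ) < (3 / 10 : ℝ) ^ m := by positivity
  linarith

/-- There are eight permutations of `V` whose graph is an expander. -/
theorem exists_expander (V : Type*) [Fintype V] :
    ∃ π : Fin 8 → Equiv.Perm V, Expander (permGraph π) := by
  by_contra hno
  push Not at hno
  obtain ⟨n, hn⟩ : ∃ n, Fintype.card V = n := ⟨_, rfl⟩
  -- the bad events
  let E : Finset V → Finset V → Finset (Fin 8 → Equiv.Perm V) :=
    fun S U => Fintype.piFinset fun _ => maps S (S ∪ U)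
  have hcover : (univ : Finset (Fin 8 → Equiv.Perm V)) ⊆
      (Icc 1 (n / 2)).biUnion fun s => (powersetCard s univ).biUnion fun S =>
        (powersetCard (s / 8) univ).biUnion fun U => E S U := by
    intro π _
    have h := hno π
    rw [Expander] at h
    push Not at h
    obtain ⟨S, hSne, hS2, hSb⟩ := h
    rw [hn] at hS2
    have hpos := hSne.card_pos
    have hb : (bd (permGraph π) S).card ≤ S.card / 8 := by omega
    have hn8 : S.card / 8 ≤ (univ : Finset V).card := by
      rw [card_univ, hn]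
      omega
    obtain ⟨U, hU1, _, hU2⟩ := exists_subsuperset_card_eq (subset_univ (bd (permGraph π) S)) hb hn8
    rw [mem_biUnion]
    refine ⟨S.card, mem_Icc.2 ⟨hpos, by omega⟩, ?_⟩
    rw [mem_biUnion]
    refine ⟨S, mem_powersetCard.2 ⟨subset_univ _, rfl⟩, ?_⟩
    rw [mem_biUnion]
    refine ⟨U, mem_powersetCard.2 ⟨subset_univ _, hU2⟩, ?_⟩
    rw [Fintype.mem_piFinset]
    intro i
    rw [maps, mem_filter]
    refine ⟨mem_univ _, ?_⟩
    intro x hx
    rw [mem_union]
    by_cases hxS : π i x ∈ S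
    · exact Or.inl hxS
    · right
      apply hU1
      rw [bd, mem_filter]
      refine ⟨mem_univ _, hxS, x, hx, ?_, i, Or.inl rfl⟩
      intro hxx
      rw [← hxx] at hxS
      exact hxS hx
  have hcard := card_le_card hcover
  have htotal : (univ : Finset (Fin 8 → Equiv.Perm V)).card = n.factorial ^ 8 := by
    rw [card_univ, Fintype.card_fun, Fintype.card_perm, Fintype.card_fin, hn]
  rw [htotal] at hcard
  have hfac : (0 : ℝ) < (n.factorial : ℝ) := by exact_mod_cast n.factorial_pos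
  have hE : ∀ s ∈ Icc 1 (n / 2), ∀ S ∈ powersetCard s (univ : Finset V),
      ∀ U ∈ powersetCard (s / 8) (univ : Finset V),
      ((E S U).card : ℝ) ≤ (((9 / 8 * s : ℝ) / n) ^ s) ^ 8 * (n.factorial : ℝ) ^ 8 := by
    intro s hs S hS U hU
    rw [mem_Icc] at hs
    rw [mem_powersetCard] at hS hU
    have hn0 : (0 : ℝ) < n := by
      have : 0 < n := by omega
      exact_mod_cast this
    have h1 : (E S U).card = (maps S (S ∪ U)).card ^ 8 := by
      simp only [E]
      rw [Fintype.card_piFinset]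
      simp
    rw [h1]
    push_cast
    rw [← mul_pow]
    apply pow_le_pow_left₀ (by positivity)
    have h2 := card_maps_mul S (S ∪ U)
    rw [hn, hS.2] at h2
    have h3 : ((maps S (S ∪ U)).card : ℝ) * (n : ℝ) ^ s
        ≤ ((S ∪ U).card : ℝ) ^ s * (n.factorial : ℝ) := by exact_mod_cast h2
    have h4 : ((S ∪ U).card : ℝ) ≤ 9 / 8 * s := by
      have h5 := card_union_le S U
      rw [hS.2, hU.2] at h5
      have h6 : 8 * (S ∪ U).card ≤ 9 * s := by omega
      have h7 : (8 * (S ∪ U).card : ℝ) ≤ 9 * s := by exact_mod_cast h6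
      linarith
    have h5 : ((S ∪ U).card : ℝ) ^ s ≤ (9 / 8 * s : ℝ) ^ s :=
      pow_le_pow_left₀ (by positivity) h4 s
    rw [div_pow, div_mul_eq_mul_div, le_div_iff₀ (by positivity)]
    exact h3.trans (mul_le_mul_of_nonneg_right h5 hfac.le)
  have hsum : ((n.factorial : ℝ) ^ 8) ≤
      ∑ s ∈ Icc 1 (n / 2), (3 / 10 : ℝ) ^ s * (n.factorial : ℝ) ^ 8 := by
    have h1 : ((n.factorial ^ 8 : ℕ) : ℝ) ≤ ∑ s ∈ Icc 1 (n / 2),
        ∑ S ∈ powersetCard s (univ : Finset V),
          ∑ U ∈ powersetCard (s / 8) (univ : Finset V), ((E S U).card : ℝ) := by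
      have h2 : n.factorial ^ 8 ≤ ∑ s ∈ Icc 1 (n / 2),
        ∑ S ∈ powersetCard s (univ : Finset V),
          ∑ U ∈ powersetCard (s / 8) (univ : Finset V), (E S U).card := by
        refine hcard.trans (card_biUnion_le.trans (sum_le_sum fun s _ => ?_))
        refine card_biUnion_le.trans (sum_le_sum fun S _ => ?_)
        exact card_biUnion_le
      exact_mod_cast h2
    push_cast at h1
    refine h1.trans (sum_le_sum fun s hs => ?_)
    have hs' := mem_Icc.1 hs
    calc ∑ S ∈ powersetCard s (univ : Finset V),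
          ∑ U ∈ powersetCard (s / 8) (univ : Finset V), ((E S U).card : ℝ)
        ≤ ∑ S ∈ powersetCard s (univ : Finset V),
          ∑ U ∈ powersetCard (s / 8) (univ : Finset V),
            ((((9 / 8 * s : ℝ) / n) ^ s) ^ 8 * (n.factorial : ℝ) ^ 8) :=
          sum_le_sum fun S hS => sum_le_sum fun U hU => hE s hs S hS U hU
      _ = (n.choose s : ℝ) * (n.choose (s / 8) : ℝ) * (((9 / 8 * s : ℝ) / n) ^ s) ^ 8 *
            (n.factorial : ℝ) ^ 8 := by
          rw [sum_const, sum_const, card_powersetCard, card_powersetCard, card_univ,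
            hn, nsmul_eq_mul, nsmul_eq_mul]
          ring
      _ ≤ (3 / 10 : ℝ) ^ s * (n.factorial : ℝ) ^ 8 := by
          apply mul_le_mul_of_nonneg_right _ (by positivity)
          exact term_le n s hs'.1 (by omega)
  rw [← sum_mul] at hsum
  have h8 : (0 : ℝ) < (n.factorial : ℝ) ^ 8 := by positivity
  have := mul_lt_mul_of_pos_right (sum_lt (n / 2)) h8
  rw [one_mul] at this
  linarith

end Pool.Agent.Lib.MP_aa4a89_co.Exp
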