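import Mathlib
import Pool.Agent.Lib.MP_aa4a89_co.Glue
import Pool.Agent.Lib.MP_aa4a89_co.Exp.Exists

/-!
# The order of magnitude of `c({C_k}, n)` and `c({P_k}, n)`
-/

namespace Pool.Agent.Lib.MP_aa4a89_co.Exp

open Finset Classical

/-- The vertices equal or adjacent to `x`. -/
noncomputable def lz {V : Type*} [Fintype V] (B : SimpleGraph V) (x : V) : Finset V :=
  univ.filter fun y => Lz B x y

lemma card_lz_le {V : Type*} [Fintype V] (π : Fin 8 → Equiv.Perm V) (x : V) :
    (lz (permGraph π) x).card ≤ 17 := by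
  have h : lz (permGraph π) x ⊆ insert x
      ((univ.image fun i : Fin 8 => π i x) ∪ (univ.image fun i : Fin 8 => (π i).symm x)) := by
    intro y hy
    rw [lz, mem_filter] at hy
    rw [mem_insert, mem_union, mem_image, mem_image]
    rcases hy.2 with h | ⟨_, i, h | h⟩
    · exact Or.inl h.symm
    · exact Or.inr (Or.inl ⟨i, mem_univ _, h⟩)
    · refine Or.inr (Or.inr ⟨i, mem_univ _, ?_⟩)
      rw [← h, Equiv.symm_apply_apply]
  refine (card_le_card h).trans ((card_insert_le _ _).trans ?_)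
  have h1 : (univ.image fun i : Fin 8 => π i x).card ≤ 8 := card_image_le.trans (by simp)
  have h2 : (univ.image fun i : Fin 8 => (π i).symm x).card ≤ 8 := card_image_le.trans (by simp)
  have h3 := card_union_le (univ.image fun i : Fin 8 => π i x)
    (univ.image fun i : Fin 8 => (π i).symm x)
  omega

/-- The closed neighbourhood in the cube as a finite set. -/
noncomputable def nbhd3 {V : Type*} [Fintype V] (B : SimpleGraph V) (D : Finset V) : Finset V :=
  D.biUnion fun x => (lz B x).biUnion fun a => (lz B a).biUnion fun b => lz B b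

lemma mem_nbhd3 {V : Type*} [Fintype V] {B : SimpleGraph V} {D : Finset V} {v : V}
    (hv : v ∈ closedNbhd (cube B) (D : Set V)) : v ∈ nbhd3 B D := by
  rw [nbhd3, mem_biUnion]
  rcases hv with hv | ⟨u, hu, _, a, b, h1, h2, h3⟩
  · refine ⟨v, hv, mem_biUnion.2 ⟨v, ?_, mem_biUnion.2 ⟨v, ?_, ?_⟩⟩⟩ <;>
      exact mem_filter.2 ⟨mem_univ _, Lz.refl v⟩
  · exact ⟨u, hu, mem_biUnion.2 ⟨a, mem_filter.2 ⟨mem_univ _, h1⟩,
      mem_biUnion.2 ⟨b, mem_filter.2 ⟨mem_univ _, h2⟩, mem_filter.2 ⟨mem_univ _, h3⟩⟩⟩⟩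

lemma card_nbhd3_le {V : Type*} [Fintype V] (π : Fin 8 → Equiv.Perm V) (D : Finset V) :
    (nbhd3 (permGraph π) D).card ≤ D.card * (17 * (17 * 17)) := by
  refine card_biUnion_le_card_mul _ _ _ fun x _ => ?_
  refine (card_biUnion_le_card_mul _ _ (17 * 17) fun a _ => ?_).trans
    (Nat.mul_le_mul_right _ (card_lz_le π x))
  refine (card_biUnion_le_card_mul _ _ 17 fun b _ => card_lz_le π b).trans
    (Nat.mul_le_mul_right _ (card_lz_le π a))

lemma lower (k n : ℕ) (hk : 3 ≤ k) (hkn : k ≤ n) :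
    ((n : ℝ) - k + 1) / (157216 * n) ≤ c (SimpleGraph.cycleGraph k) n := by
  have : Nonempty (Fin k) := ⟨⟨0, by omega⟩⟩
  have : Nonempty (Fin n) := ⟨⟨0, by omega⟩⟩
  obtain ⟨π, hπ⟩ := exists_expander (Fin n)
  have hconn : (cube (permGraph π)).Connected := hπ.connected.mono (le_cube _)
  have key := c_ge (SimpleGraph.cycleGraph k) (cube (permGraph π)) hconn
    (((n : ℝ) - k + 1) / (157216 * n)) ?_
  · rwa [Fintype.card_fin] at key
  · intro D hD
    rw [Fintype.card_fin]
    have hn0 : (0 : ℝ) < n := by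
      have : 0 < n := by omega
      exact_mod_cast this
    by_contra hlt
    push Not at hlt
    have h1 : ((n : ℝ) - k + 1) / (157216 * n) * n = ((n : ℝ) - k + 1) / 157216 := by
      field_simp
    rw [h1, lt_div_iff₀ (by norm_num)] at hlt
    have h2 : D.card * 157216 + k < n + 1 := by
      have : ((D.card * 157216 + k : ℕ) : ℝ) < ((n + 1 : ℕ) : ℝ) := by
        push_cast
        linarith
      exact_mod_cast this
    have hX := card_nbhd3_le π D
    obtain ⟨R, hRd, hRc, hR⟩ := exists_big hπ (nbhd3 (permGraph π) D) (by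
      rw [Fintype.card_fin]
      omega)
    rw [Fintype.card_fin] at hRc
    obtain ⟨S, hSR, hSk, u, hT⟩ := exists_tree (permGraph π) R hR k (by omega) (by omega)
    refine @Tr.cycle (Fin n) (fun a b => propDecidable (a = b)) _ S u hT
      (closedNbhd (cube (permGraph π)) (D : Set (Fin n))) k hk hSk ?_ hD
    intro x hx hx'
    exact (disjoint_left.1 hRd) (hSR hx) (mem_nbhd3 hx')

lemma bddAbove_c {W : Type*} (F : SimpleGraph W) (n : ℕ) :
    BddAbove {x : ℝ | ∃ G : SimpleGraph (Fin n), G.Connected ∧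
      x = (isolationNumber G F : ℝ) / n} := by
  apply Set.Finite.bddAbove
  apply (Set.finite_range (fun G : SimpleGraph (Fin n) => (isolationNumber G F : ℝ) / n)).subset
  rintro x ⟨G, _, rfl⟩
  exact ⟨G, rfl⟩

lemma c_le {W : Type*} (F : SimpleGraph W) (n : ℕ) (hn : 1 ≤ n) (a : ℝ)
    (h : ∀ G : SimpleGraph (Fin n), G.Connected → (isolationNumber G F : ℝ) / n ≤ a) :
    c F n ≤ a := by
  have : Nonempty (Fin n) := ⟨⟨0, by omega⟩⟩
  refine csSup_le ⟨_, ⊤, SimpleGraph.connected_top, rfl⟩ ?_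
  rintro x ⟨G, hG, rfl⟩
  exact h G hG

lemma mid (k n : ℕ) (hk : 3 ≤ k) (hkn : k ≤ n) :
    c (SimpleGraph.cycleGraph k) n ≤ c (SimpleGraph.pathGraph k) n := by
  refine c_le _ n (by omega) _ fun G hG => ?_
  refine le_trans ?_ (le_csSup (bddAbove_c (SimpleGraph.pathGraph k) n) ⟨G, hG, rfl⟩)
  have : Nonempty (Fin k) := ⟨⟨0, by omega⟩⟩
  obtain ⟨D, hD, hD'⟩ := exists_min G (SimpleGraph.pathGraph k)
  have h1 : isolationNumber G (SimpleGraph.cycleGraph k) ≤ D.card := by
    apply Nat.sInf_le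
    refine ⟨D, rfl, ?_⟩
    rintro ⟨f⟩
    exact hD' ⟨f.comp (SimpleGraph.Copy.ofLE _ _ SimpleGraph.pathGraph_le_cycleGraph)⟩
  rw [hD] at h1
  apply div_le_div_of_nonneg_right _ (Nat.cast_nonneg n)
  exact_mod_cast h1

lemma upper (k n : ℕ) (hk : 3 ≤ k) (hkn : k ≤ n) :
    c (SimpleGraph.pathGraph k) n ≤ ((n : ℝ) - k + 1) / n := by
  refine c_le _ n (by omega) _ fun G _ => ?_
  apply div_le_div_of_nonneg_right _ (Nat.cast_nonneg n)
  obtain ⟨D, _, hD⟩ := exists_subset_card_eq (s := (univ : Finset (Fin n))) (n := n - k + 1) (by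
    rw [card_univ, Fintype.card_fin]
    omega)
  have h1 : isolationNumber G (SimpleGraph.pathGraph k) ≤ D.card := by
    apply Nat.sInf_le
    refine ⟨D, rfl, ?_⟩
    rintro ⟨f⟩
    have hinj : Function.Injective (fun i : Fin k => (f i : Fin n)) := by
      intro i j hij
      exact f.injective (Subtype.ext hij)
    have h2 : (univ.image fun i : Fin k => (f i : Fin n)) ⊆ univ \ D := by
      intro x hx
      rw [mem_image] at hx
      obtain ⟨i, _, rfl⟩ := hx
      rw [mem_sdiff]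
      exact ⟨mem_univ _, fun h => (f i).2 (Or.inl h)⟩
    have h3 := card_le_card h2
    rw [card_image_of_injective _ hinj, card_univ, Fintype.card_fin,
      card_sdiff_of_subset (subset_univ _), card_univ, Fintype.card_fin, hD] at h3
    omega
  rw [hD] at h1
  have h2 : ((isolationNumber G (SimpleGraph.pathGraph k) : ℕ) : ℝ) ≤ ((n - k + 1 : ℕ) : ℝ) := by
    exact_mod_cast h1
  rw [Nat.cast_add, Nat.cast_sub hkn, Nat.cast_one] at h2
  exact h2

end Pool.Agent.Lib.MP_aa4a89_co.Exp
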